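import Mathlib

set_option autoImplicit false

namespace Pool.Agent.R272.Jerk

/-- `Δ w_i = (w_{i-1} - (2+ρ) w_i + w_{i+1}) / (h J)`. -/
noncomputable def Dlt (h J ρ : ℝ) (w : ℕ → ℝ) (i : ℕ) : ℝ :=
  (w (i - 1) - (2 + ρ) * w i + w (i + 1)) / (h * J)

/-- The set `C` (vectors are functions on `ℕ`, only the indices `1, …, n` matter). -/
def InC (n : ℕ) (h A : ℝ) (wmax w : ℕ → ℝ) : Prop :=
  w 1 = 0 ∧ w n = 0 ∧ (∀ i, 2 ≤ i → i ≤ n - 1 → 0 ≤ w i ∧ w i ≤ wmax i) ∧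
    ∀ i, 1 ≤ i → i ≤ n - 1 → |w (i + 1) - w i| ≤ h * A

/-- Feasibility of `(w,t)` for the relaxation (R). As `h/√0 = +∞`, a finite `t_i ≥ h/√w_i`
forces `w_i > 0`. -/
def RFeas (n : ℕ) (h J ρ A : ℝ) (wmax w t : ℕ → ℝ) : Prop :=
  InC n h A wmax w ∧ ∀ i, 2 ≤ i → i ≤ n - 1 →
    0 < w i ∧ h / Real.sqrt (w i) ≤ t i ∧ |Dlt h J ρ w i| ≤ t i

/-- `(w,t)` is a minimizer of the relaxation (R). -/
def RMin (n : ℕ) (h J ρ A : ℝ) (wmax w t : ℕ → ℝ) : Prop :=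
  RFeas n h J ρ A wmax w t ∧ ∀ w' t' : ℕ → ℝ, RFeas n h J ρ A wmax w' t' →
    ∑ i ∈ Finset.Icc 2 (n - 1), t i ≤ ∑ i ∈ Finset.Icc 2 (n - 1), t' i

/-- `w` is feasible for (P) with finite objective value (so `w_i > 0` for `2 ≤ i ≤ n-1`). -/
def PFeas (n : ℕ) (h J ρ A : ℝ) (wmax w : ℕ → ℝ) : Prop :=
  InC n h A wmax w ∧ ∀ i, 2 ≤ i → i ≤ n - 1 →
    0 < w i ∧ |Dlt h J ρ w i| ≤ h / Real.sqrt (w i)

end Pool.Agent.R272.Jerk
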