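import Pool.Agent.R272.Jerk.Defs

set_option autoImplicit false

namespace Pool.Agent.R272.Jerk

open Finset

/-- Tangent line inequality for `1/√`. -/
theorem tangent {x y k : ℝ} (hx : 0 < x) (hxy : x ≤ y) (hk : 0 ≤ k) (hky : 4 * k ^ 2 * y ^ 3 ≤ 1) :
    1 / Real.sqrt y + k * (y - x) ≤ 1 / Real.sqrt x := by
  have hy : 0 < y := lt_of_lt_of_le hx hxy
  obtain ⟨a, ha⟩ : ∃ a, a = Real.sqrt x := ⟨_, rfl⟩
  obtain ⟨b, hb⟩ : ∃ b, b = Real.sqrt y := ⟨_, rfl⟩
  have ha0 : 0 < a := by rw [ha]; exact Real.sqrt_pos.mpr hx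
  have hb0 : 0 < b := by rw [hb]; exact Real.sqrt_pos.mpr hy
  have hab : a ≤ b := by rw [ha, hb]; exact Real.sqrt_le_sqrt hxy
  have hax : a ^ 2 = x := by rw [ha]; exact Real.sq_sqrt hx.le
  have hby : b ^ 2 = y := by rw [hb]; exact Real.sq_sqrt hy.le
  rw [← ha, ← hb, ← hax, ← hby]
  have h2 : 2 * k * b ^ 3 ≤ 1 := by
    have h3 : (2 * k * b ^ 3) ^ 2 ≤ 1 := by
      calc (2 * k * b ^ 3) ^ 2 = 4 * k ^ 2 * (b ^ 2) ^ 3 := by ring
        _ ≤ 1 := by rw [hby]; exact hky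
    have h4 : 0 ≤ 2 * k * b ^ 3 := by positivity
    nlinarith
  have h5 : k * (a * b * (a + b)) ≤ 1 := by
    have h6 : a * b * (a + b) ≤ 2 * b ^ 3 := by
      have : a * b ≤ b * b := by nlinarith
      nlinarith [mul_pos ha0 hb0, mul_pos hb0 hb0]
    nlinarith [mul_le_mul_of_nonneg_left h6 hk]
  have h7 : 1 / a - 1 / b - k * (b ^ 2 - a ^ 2) = (b - a) * (1 - k * (a * b * (a + b))) / (a * b) := by
    field_simp
    ring
  have h8 : 0 ≤ (b - a) * (1 - k * (a * b * (a + b))) / (a * b) :=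
    div_nonneg (mul_nonneg (by linarith) (by linarith)) (by positivity)
  linarith

theorem inv_sqrt_bound {y z b : ℝ} (hy : 0 < y) (hz : |z| ≤ b) (hb : b ^ 2 * y ≤ 1) :
    |z| ≤ 1 / Real.sqrt y := by
  have hs : 0 < Real.sqrt y := Real.sqrt_pos.mpr hy
  rw [le_div_iff₀ hs]
  have h1 : (|z| * Real.sqrt y) ^ 2 ≤ 1 := by
    calc (|z| * Real.sqrt y) ^ 2 = |z| ^ 2 * y := by rw [mul_pow, Real.sq_sqrt hy.le]
      _ ≤ b ^ 2 * y := by
        have : |z| ^ 2 ≤ b ^ 2 := pow_le_pow_left₀ (abs_nonneg _) hz 2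
        exact mul_le_mul_of_nonneg_right this hy.le
      _ ≤ 1 := hb
  have h2 : 0 ≤ |z| * Real.sqrt y := by positivity
  nlinarith

/-- The profile as a function of the distance to the centre. -/
def tb : ℕ → ℝ
  | 0 => 8 | 1 => 24 | 2 => 40 | 3 => 56 | 4 => 72 | 5 => 88 | 6 => 104 | 7 => 120 | 8 => 136
  | 9 => 152 | 10 => 168 | 11 => 184 | 12 => 200 | 13 => 216 | 14 => 232 | 15 => 243 | 16 => 249
  | 17 => 250 | 18 => 246 | 19 => 237 | 20 => 223 | 21 => 207 | 22 => 191 | 23 => 175 | 24 => 159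
  | 25 => 143 | 26 => 127 | 27 => 111 | 28 => 95 | 29 => 79 | 30 => 63 | 31 => 47 | 32 => 31
  | 33 => 15 | _ => 0

/-- Tangent coefficients. -/
def kk : ℕ → ℝ
  | 1 => 380362 | 2 => 176776 | 3 => 106716 | 4 => 73200 | 5 => 54174 | 6 => 42166 | 7 => 34020
  | 8 => 28197 | 9 => 23864 | 10 => 20537 | 11 => 17917 | 12 => 15811 | 13 => 14087 | 14 => 12655
  | _ => 0

/-- Distance to the centre. -/
def dd (i : ℕ) : ℕ := (i - 35) + (35 - i)

/-- The upper bound profile (normalised). -/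
noncomputable def W (i : ℕ) : ℝ := tb (dd i) / 20

/-- The coefficients. -/
noncomputable def K (i : ℕ) : ℝ := kk (dd i) / 1000000

theorem W_pos : ∀ i : ℕ, 2 ≤ i → i ≤ 68 → 0 < W i := by
  intro i h1 h2
  interval_cases i <;> norm_num [W, tb, dd]

theorem W_slope : ∀ i : ℕ, 1 ≤ i → i ≤ 68 → |W (i + 1) - W i| ≤ 4 / 5 := by
  intro i h1 h2
  interval_cases i <;> norm_num [W, tb, dd, abs_le]

theorem K_nonneg : ∀ i : ℕ, 2 ≤ i → i ≤ 68 → 0 ≤ K i := by
  intro i h1 h2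
  interval_cases i <;> norm_num [K, kk, dd]

theorem K_bound : ∀ i : ℕ, 2 ≤ i → i ≤ 68 → i ≠ 35 → 4 * K i ^ 2 * W i ^ 3 ≤ 1 := by
  intro i h1 h2 h3
  interval_cases i <;> first | exact absurd rfl h3 | norm_num [K, kk, W, tb, dd]

theorem W_second : ∀ i : ℕ, 2 ≤ i → i ≤ 68 → i ≠ 35 →
    (|W (i - 1) - 2 * W i + W (i + 1)| + W i / 1000) ^ 2 * W i ≤ 1 := by
  intro i h1 h2 h3
  interval_cases i <;> first | exact absurd rfl h3 | norm_num [W, tb, dd, abs_of_nonneg, abs_of_nonpos]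

/-- The `t`-part of the minimiser. -/
noncomputable def T (ρ : ℝ) (i : ℕ) : ℝ :=
  if i = 35 then 8 / 5 - 2 / 5 * ρ else 1 / Real.sqrt (W i)

theorem Dlt_one (ρ : ℝ) (w : ℕ → ℝ) (i : ℕ) :
    Dlt 1 1 ρ w i = w (i - 1) - 2 * w i + w (i + 1) - ρ * w i := by
  unfold Dlt; ring

theorem D35 (ρ : ℝ) : Dlt 1 1 ρ W 35 = 8 / 5 - 2 / 5 * ρ := by
  rw [Dlt_one]
  norm_num [W, tb, dd]
  ring

theorem sqrt35 : 1 / Real.sqrt (2 / 5) < 1.582 := by
  have h : (1.58 / 2.5 : ℝ) < Real.sqrt (2 / 5) := by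
    apply Real.lt_sqrt_of_sq_lt
    norm_num
  have h0 : (0 : ℝ) < Real.sqrt (2 / 5) := Real.sqrt_pos.mpr (by norm_num)
  have h2 : (1 / 1.582 : ℝ) < Real.sqrt (2 / 5) := by
    apply Real.lt_sqrt_of_sq_lt
    norm_num
  rw [div_lt_iff₀ h0]
  have h3 : (1.582 : ℝ) * (1 / 1.582) = 1 := by norm_num
  nlinarith

theorem W35 : W 35 = 2 / 5 := by norm_num [W, tb, dd]

theorem feas {ρ : ℝ} (h0 : 0 < ρ) (h1 : ρ ≤ 1 / 1000) : RFeas 69 1 1 ρ (4 / 5) W W (T ρ) := by
  refine ⟨⟨by norm_num [W, tb, dd], by norm_num [W, tb, dd], ?_, ?_⟩, ?_⟩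
  · intro i hi1 hi2
    exact ⟨(W_pos i hi1 hi2).le, le_refl _⟩
  · intro i hi1 hi2
    rw [one_mul]
    exact W_slope i hi1 hi2
  · intro i hi1 hi2
    have hp := W_pos i hi1 hi2
    refine ⟨hp, ?_, ?_⟩
    · unfold T
      split_ifs with h
      · subst h
        rw [W35]
        have := sqrt35
        norm_num at this ⊢
        linarith
      · exact le_refl _
    · unfold T
      split_ifs with h
      · subst h
        rw [D35, abs_of_nonneg]
        linarith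
      · refine inv_sqrt_bound hp ?_ (W_second i hi1 hi2 h)
        rw [Dlt_one]
        calc |W (i - 1) - 2 * W i + W (i + 1) - ρ * W i|
            ≤ |W (i - 1) - 2 * W i + W (i + 1)| + |ρ * W i| := abs_sub _ _
          _ ≤ |W (i - 1) - 2 * W i + W (i + 1)| + W i / 1000 := by
            rw [abs_of_nonneg (by positivity : 0 ≤ ρ * W i)]
            nlinarith

/-- Slope bound away from the centre, to the right. -/
theorem right_u {w : ℕ → ℝ} (hs : ∀ i, 1 ≤ i → i ≤ 68 → |w (i + 1) - w i| ≤ 1 * (4 / 5)) :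
    ∀ j : ℕ, j ≤ 13 → W 36 - w 36 ≤ W (36 + j) - w (36 + j) := by
  intro j
  induction j with
  | zero => intro _; exact le_refl _
  | succ j ih =>
    intro hj
    have h1 := ih (by omega)
    have h2 := hs (36 + j) (by omega) (by omega)
    have h3 : W (36 + (j + 1)) = W (36 + j) + 4 / 5 := by
      have : j ≤ 12 := by omega
      interval_cases j <;> norm_num [W, tb, dd]
    have h4 := (abs_le.mp h2).2
    rw [h3]
    have h5 : w (36 + (j + 1)) = w (36 + j + 1) := rfl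
    rw [h5]
    linarith

/-- Slope bound away from the centre, to the left. -/
theorem left_u {w : ℕ → ℝ} (hs : ∀ i, 1 ≤ i → i ≤ 68 → |w (i + 1) - w i| ≤ 1 * (4 / 5)) :
    ∀ j : ℕ, j ≤ 13 → W 34 - w 34 ≤ W (34 - j) - w (34 - j) := by
  intro j
  induction j with
  | zero => intro _; exact le_refl _
  | succ j ih =>
    intro hj
    have h1 := ih (by omega)
    have h2 := hs (34 - (j + 1)) (by omega) (by omega)
    have h3 : W (34 - (j + 1)) = W (34 - j) + 4 / 5 := by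
      have : j ≤ 12 := by omega
      interval_cases j <;> norm_num [W, tb, dd]
    have h5 : 34 - (j + 1) + 1 = 34 - j := by omega
    rw [h5] at h2
    have h4 := (abs_le.mp h2).1
    rw [h3]
    linarith

theorem lower {ρ : ℝ} (h0 : 0 < ρ) (h1 : ρ ≤ 1 / 1000) {w t : ℕ → ℝ}
    (hf : RFeas 69 1 1 ρ (4 / 5) W w t) :
    ∑ i ∈ Finset.Icc 2 68, T ρ i + (2 * (W 35 - w 35) + 0.000482 * ((W 34 - w 34) + (W 36 - w 36))) ≤
      ∑ i ∈ Finset.Icc 2 68, t i := by
  obtain ⟨⟨-, -, hb, hs⟩, ht⟩ := hf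
  have hle : ∀ i, 2 ≤ i → i ≤ 68 → w i ≤ W i := fun i a b => (hb i a b).2
  -- termwise bound
  have hterm : ∀ i ∈ Finset.Icc 2 68, T ρ i +
      (if i = 35 then 2 * (W 35 - w 35) - (W 34 - w 34) - (W 36 - w 36) else K i * (W i - w i)) ≤ t i := by
    intro i hi
    obtain ⟨ha, hb'⟩ := Finset.mem_Icc.mp hi
    obtain ⟨hp, hq, hr⟩ := ht i ha hb'
    unfold T
    split_ifs with h
    · subst h
      have h3 := (abs_le.mp (le_refl |Dlt 1 1 ρ w 35|)).2
      have h4 : Dlt 1 1 ρ w 35 ≤ t 35 := le_trans (le_abs_self _) hr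
      rw [Dlt_one] at h4
      have h5 := D35 ρ
      rw [Dlt_one] at h5
      norm_num at h4 h5
      have h6 := hle 35 (by norm_num) (by norm_num)
      nlinarith
    · have := tangent hp (hle i ha hb') (K_nonneg i ha hb') (K_bound i ha hb' h)
      linarith
  have hsum := Finset.sum_le_sum hterm
  rw [Finset.sum_add_distrib] at hsum
  have hR := fun j hj => right_u hs j hj
  have hL := fun j hj => left_u hs j hj
  have hg : 2 * (W 35 - w 35) + 0.000482 * ((W 34 - w 34) + (W 36 - w 36)) ≤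
      ∑ i ∈ Finset.Icc 2 68, (if i = 35 then 2 * (W 35 - w 35) - (W 34 - w 34) - (W 36 - w 36)
        else K i * (W i - w i)) := by
    have r1 := hR 1 (by norm_num)
    have r2 := hR 2 (by norm_num)
    have r3 := hR 3 (by norm_num)
    have r4 := hR 4 (by norm_num)
    have r5 := hR 5 (by norm_num)
    have r6 := hR 6 (by norm_num)
    have r7 := hR 7 (by norm_num)
    have r8 := hR 8 (by norm_num)
    have r9 := hR 9 (by norm_num)
    have r10 := hR 10 (by norm_num)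
    have r11 := hR 11 (by norm_num)
    have r12 := hR 12 (by norm_num)
    have r13 := hR 13 (by norm_num)
    have l1 := hL 1 (by norm_num)
    have l2 := hL 2 (by norm_num)
    have l3 := hL 3 (by norm_num)
    have l4 := hL 4 (by norm_num)
    have l5 := hL 5 (by norm_num)
    have l6 := hL 6 (by norm_num)
    have l7 := hL 7 (by norm_num)
    have l8 := hL 8 (by norm_num)
    have l9 := hL 9 (by norm_num)
    have l10 := hL 10 (by norm_num)
    have l11 := hL 11 (by norm_num)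
    have l12 := hL 12 (by norm_num)
    have l13 := hL 13 (by norm_num)
    simp only [Nat.reduceAdd, Nat.reduceSub] at r1 r2 r3 r4 r5 r6 r7 r8 r9 r10 r11 r12 r13 l1 l2 l3 l4 l5 l6 l7 l8 l9 l10 l11 l12 l13
    generalize hU : (fun i : ℕ => W i - w i) = U
    have hUi : ∀ i, W i - w i = U i := fun i => by rw [← hU]
    simp only [hUi] at r1 r2 r3 r4 r5 r6 r7 r8 r9 r10 r11 r12 r13 l1 l2 l3 l4 l5 l6 l7 l8 l9 l10 l11 l12 l13 ⊢
    rw [show Finset.Icc 2 68 = Finset.Ico 2 69 from rfl, Finset.sum_Ico_eq_sum_range]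
    simp only [Nat.reduceSub, Finset.sum_range_succ, Finset.sum_range_zero, K, kk, dd]
    norm_num
    linarith
  linarith

end Pool.Agent.R272.Jerk
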