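import Pool.Agent.R272.Jerk.Main

set_option autoImplicit false

namespace Pool.Agent.R272.Jerk

open Finset

theorem Dlt_scale {h J s ρ : ℝ} (hh : 0 < h) (hJ : 0 < J) (hs : 0 < s) (hs3 : s ^ 3 = h ^ 2 * J)
    (w : ℕ → ℝ) (i : ℕ) :
    Dlt h J ρ (fun i => s ^ 2 * w i) i = h / s * Dlt 1 1 ρ w i := by
  unfold Dlt
  have h1 : s ^ 2 / (h * J) = h / s := by
    rw [div_eq_div_iff (by positivity) hs.ne']
    nlinarith
  rw [show (s ^ 2 * w (i - 1) - (2 + ρ) * (s ^ 2 * w i) + s ^ 2 * w (i + 1)) / (h * J)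
    = s ^ 2 / (h * J) * (w (i - 1) - (2 + ρ) * w i + w (i + 1)) by ring, h1]
  ring

theorem sqrt_scale {h s : ℝ} (hs : 0 < s) (x : ℝ) :
    h / Real.sqrt (s ^ 2 * x) = h / s * (1 / Real.sqrt x) := by
  rw [Real.sqrt_mul (by positivity), Real.sqrt_sq hs.le]
  rw [div_mul_div_comm, mul_one]

theorem InC_scale {n : ℕ} {h J s a : ℝ} (hh : 0 < h) (hJ : 0 < J) (hs : 0 < s)
    (Wm w : ℕ → ℝ) :
    InC n h (s ^ 2 / h * a) (fun i => s ^ 2 * Wm i) (fun i => s ^ 2 * w i) ↔ InC n 1 a Wm w := by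
  unfold InC
  have hs2 : 0 < s ^ 2 := by positivity
  have e1 : ∀ x : ℝ, s ^ 2 * x = 0 ↔ x = 0 := fun x => by
    constructor
    · intro h; rcases mul_eq_zero.mp h with h | h
      · exact absurd h hs2.ne'
      · exact h
    · intro h; rw [h, mul_zero]
  have e2 : ∀ x : ℝ, 0 ≤ s ^ 2 * x ↔ 0 ≤ x := fun x => by
    constructor
    · intro h; by_contra hc; push Not at hc; nlinarith [mul_neg_of_pos_of_neg hs2 hc]
    · intro h; positivity
  have e3 : ∀ x y : ℝ, s ^ 2 * x ≤ s ^ 2 * y ↔ x ≤ y := fun x y =>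
    mul_le_mul_iff_of_pos_left hs2
  have e4 : ∀ x y : ℝ, |s ^ 2 * x - s ^ 2 * y| ≤ h * (s ^ 2 / h * a) ↔ |x - y| ≤ 1 * a := fun x y => by
    rw [← mul_sub, abs_mul, abs_of_pos hs2, show h * (s ^ 2 / h * a) = s ^ 2 * (1 * a) by field_simp]
    exact mul_le_mul_iff_of_pos_left hs2
  simp only [e1, e2, e3, e4]

theorem RFeas_scale {n : ℕ} {h J s ρ a : ℝ} (hh : 0 < h) (hJ : 0 < J) (hs : 0 < s)
    (hs3 : s ^ 3 = h ^ 2 * J) (Wm w t : ℕ → ℝ) :
    RFeas n h J ρ (s ^ 2 / h * a) (fun i => s ^ 2 * Wm i) (fun i => s ^ 2 * w i)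
      (fun i => h / s * t i) ↔ RFeas n 1 1 ρ a Wm w t := by
  unfold RFeas
  rw [InC_scale hh hJ hs]
  have hs2 : 0 < s ^ 2 := by positivity
  have hhs : 0 < h / s := by positivity
  have e0 : ∀ x : ℝ, 0 < s ^ 2 * x ↔ 0 < x := fun x => mul_pos_iff_of_pos_left hs2
  simp only [e0, sqrt_scale hs, Dlt_scale hh hJ hs hs3, abs_mul, abs_of_pos hhs,
    mul_le_mul_iff_of_pos_left hhs]

theorem PFeas_scale {n : ℕ} {h J s ρ a : ℝ} (hh : 0 < h) (hJ : 0 < J) (hs : 0 < s)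
    (hs3 : s ^ 3 = h ^ 2 * J) (Wm w : ℕ → ℝ) :
    PFeas n h J ρ (s ^ 2 / h * a) (fun i => s ^ 2 * Wm i) (fun i => s ^ 2 * w i)
      ↔ PFeas n 1 1 ρ a Wm w := by
  unfold PFeas
  rw [InC_scale hh hJ hs]
  have hs2 : 0 < s ^ 2 := by positivity
  have hhs : 0 < h / s := by positivity
  have e0 : ∀ x : ℝ, 0 < s ^ 2 * x ↔ 0 < x := fun x => mul_pos_iff_of_pos_left hs2
  simp only [e0, sqrt_scale hs, Dlt_scale hh hJ hs hs3, abs_mul, abs_of_pos hhs,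
    mul_le_mul_iff_of_pos_left hhs]

/-- The normalised instance: minimality. -/
theorem rmin {ρ : ℝ} (h0 : 0 < ρ) (h1 : ρ ≤ 1 / 1000) : RMin 69 1 1 ρ (4 / 5) W W (T ρ) := by
  refine ⟨feas h0 h1, ?_⟩
  intro w t hf
  have h2 := lower h0 h1 hf
  have hb := hf.1.2.2.1
  have a1 := (hb 34 (by norm_num) (by norm_num)).2
  have a2 := (hb 35 (by norm_num) (by norm_num)).2
  have a3 := (hb 36 (by norm_num) (by norm_num)).2
  have : 0 ≤ 2 * (W 35 - w 35) + 0.000482 * ((W 34 - w 34) + (W 36 - w 36)) := by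
    have := sub_nonneg.mpr a1
    have := sub_nonneg.mpr a2
    have := sub_nonneg.mpr a3
    positivity
  show ∑ i ∈ Finset.Icc 2 68, T ρ i ≤ ∑ i ∈ Finset.Icc 2 68, t i
  linarith

/-- The normalised instance: gap for (P). -/
theorem pgap {ρ : ℝ} (h0 : 0 < ρ) (h1 : ρ ≤ 1 / 1000) (w : ℕ → ℝ)
    (hf : PFeas 69 1 1 ρ (4 / 5) W w) :
    ∑ i ∈ Finset.Icc 2 68, T ρ i + 1 / 1000000 ≤ ∑ i ∈ Finset.Icc 2 68, 1 / Real.sqrt (w i) := by
  have hR : RFeas 69 1 1 ρ (4 / 5) W w (fun i => 1 / Real.sqrt (w i)) :=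
    ⟨hf.1, fun i a b => ⟨(hf.2 i a b).1, le_refl _, (hf.2 i a b).2⟩⟩
  have h2 := lower h0 h1 hR
  by_contra hc
  push Not at hc
  have h3 : 2 * (W 35 - w 35) + 0.000482 * ((W 34 - w 34) + (W 36 - w 36)) < 1 / 1000000 := by
    linarith
  have hb := hf.1.2.2.1
  have a1 := (hb 34 (by norm_num) (by norm_num)).2
  have a2 := (hb 35 (by norm_num) (by norm_num)).2
  have a3 := (hb 36 (by norm_num) (by norm_num)).2
  obtain ⟨p1, p2⟩ := hf.2 35 (by norm_num) (by norm_num)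
  have h4 : Dlt 1 1 ρ w 35 ≤ 1 / Real.sqrt (w 35) := le_trans (le_abs_self _) p2
  rw [Dlt_one] at h4
  have h5 := D35 ρ
  rw [Dlt_one] at h5
  norm_num at h4 h5
  have h6 : W 35 = 2 / 5 := W35
  have h7 : 0.39999 ≤ w 35 := by
    norm_num at h3 ⊢
    linarith
  have h8 : (W 34 - w 34) + (W 36 - w 36) ≤ 0.0022 := by
    norm_num at h3 ⊢
    linarith
  have h9 : 1 / Real.sqrt (w 35) ≤ 1.582 := by
    have hs : (1 / 1.582 : ℝ) < Real.sqrt (w 35) := by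
      apply Real.lt_sqrt_of_sq_lt
      norm_num at h7 ⊢
      linarith
    have hs0 : (0 : ℝ) < Real.sqrt (w 35) := Real.sqrt_pos.mpr p1
    rw [div_le_iff₀ hs0]
    have h3 : (1.582 : ℝ) * (1 / 1.582) = 1 := by norm_num
    nlinarith
  have h10 : ρ * w 35 ≤ ρ * W 35 := by nlinarith
  rw [one_div] at h9
  norm_num at h8 h9
  linarith

/-- The final statement. -/
theorem main (h J ρ : ℝ) (hh : 0 < h) (hJ : 0 < J) (h0 : 0 < ρ) (h1 : ρ ≤ 1 / 1000) :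
    ∃ (A : ℝ) (wmax w t : ℕ → ℝ), 0 < A ∧ (∀ i, 2 ≤ i → i ≤ 68 → 0 < wmax i) ∧
      RMin 69 h J ρ A wmax w t ∧ h / Real.sqrt (w 35) < Dlt h J ρ w 35 ∧
      ∃ δ : ℝ, 0 < δ ∧ ∀ w' : ℕ → ℝ, PFeas 69 h J ρ A wmax w' →
        ∑ i ∈ Finset.Icc 2 68, t i + δ ≤ ∑ i ∈ Finset.Icc 2 68, h / Real.sqrt (w' i) := by
  obtain ⟨s, hs, hs3⟩ : ∃ s : ℝ, 0 < s ∧ s ^ 3 = h ^ 2 * J := by
    refine ⟨(h ^ 2 * J) ^ (1 / 3 : ℝ), by positivity, ?_⟩
    rw [← Real.rpow_natCast, ← Real.rpow_mul (by positivity)]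
    norm_num
  have hs2 : 0 < s ^ 2 := by positivity
  have hhs : 0 < h / s := by positivity
  have key : ∀ w' : ℕ → ℝ, w' = fun i => s ^ 2 * (w' i / s ^ 2) := fun w' => by
    funext i; field_simp
  have keyt : ∀ w' : ℕ → ℝ, w' = fun i => h / s * (w' i / (h / s)) := fun w' => by
    funext i; field_simp
  refine ⟨s ^ 2 / h * (4 / 5), fun i => s ^ 2 * W i, fun i => s ^ 2 * W i, fun i => h / s * T ρ i,
    by positivity, fun i a b => mul_pos hs2 (W_pos i a b), ⟨?_, ?_⟩, ?_, h / s * (1 / 1000000),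
    by positivity, ?_⟩
  · exact (RFeas_scale hh hJ hs hs3 W W (T ρ)).mpr (rmin h0 h1).1
  · intro w' t' hf
    rw [key w', keyt t'] at hf
    have h2 := (rmin h0 h1).2 _ _ ((RFeas_scale hh hJ hs hs3 W _ _).mp hf)
    simp only [Nat.reduceSub] at h2 ⊢
    rw [← Finset.mul_sum]
    rw [← Finset.sum_div] at h2
    rw [le_div_iff₀ hhs] at h2
    linarith
  · rw [Dlt_scale hh hJ hs hs3, sqrt_scale hs, D35, W35]
    have := sqrt35
    apply mul_lt_mul_of_pos_left _ hhs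
    norm_num at this ⊢
    linarith
  · intro w' hf
    rw [key w'] at hf
    have h2 := pgap h0 h1 _ ((PFeas_scale hh hJ hs hs3 W _).mp hf)
    have h3 : ∀ i, h / Real.sqrt (w' i) = h / s * (1 / Real.sqrt (w' i / s ^ 2)) := by
      intro i
      rw [← sqrt_scale hs]
      congr 2
      field_simp
    simp only [h3]
    rw [← Finset.mul_sum, ← Finset.mul_sum, ← mul_add]
    exact mul_le_mul_of_nonneg_left h2 hhs.le

end Pool.Agent.R272.Jerk
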